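import Pool.Agent.Helper74.HG.Goals

/-! # HG-CNT: the number of arcs of `f + w l` -/

set_option autoImplicit false

namespace Pool.Agent.Helper63.HG.CNT

open MvPolynomial Pool.Agent.Helper74.HG

open scoped Classical

/-- the pairs `(w, l)` -/
def Pr (K : Type) [Field K] (m : ℕ) (c : Tr K m) : Set (Tr K m × Tr K m) :=
  {p : Tr K m × Tr K m | p.1 ∈ Ideal.span {tt K m} ∧ p.2 ∈ Ideal.span {tt K m} ∧
      tt K m * (c + p.1 * p.2) = 0 ∧ c + p.1 * p.2 ≠ 0}

theorem finite_Tr (K : Type) [Field K] [Finite K] (m : ℕ) : Finite (Tr K m) := by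
  have h : ((Polynomial.X : Polynomial K) ^ (m + 1)) ≠ 0 := pow_ne_zero _ Polynomial.X_ne_zero
  haveI : Module.Finite K (AdjoinRoot ((Polynomial.X : Polynomial K) ^ (m + 1))) :=
    (AdjoinRoot.powerBasis h).finite
  exact Module.finite_of_finite K (M := AdjoinRoot ((Polynomial.X : Polynomial K) ^ (m + 1)))

theorem tt_pow (K : Type) [Field K] (m : ℕ) : tt K m ^ (m + 1) = 0 := by
  unfold tt
  rw [← map_pow, Ideal.Quotient.eq_zero_iff_mem]
  exact Ideal.mem_span_singleton_self _

theorem pow_mul_zero (K : Type) [Field K] (m : ℕ) (c : Tr K m) (hc : c ∈ Ideal.span {tt K m}) :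
    tt K m ^ m * c = 0 := by
  obtain ⟨a, rfl⟩ := Ideal.mem_span_singleton'.1 hc
  calc tt K m ^ m * (a * tt K m) = a * tt K m ^ (m + 1) := by ring
    _ = 0 := by rw [tt_pow, mul_zero]

theorem aeval_mem (K : Type) [Field K] {σ : Type} (m : ℕ) (f : MvPolynomial σ ℤ)
    (hf : constantCoeff f = 0) (x : σ → Tr K m) (hx : x ∈ Arc K σ m) :
    aeval x f ∈ Ideal.span {tt K m} := by
  have key : ∀ g : MvPolynomial σ ℤ,
      aeval x g - ((constantCoeff g : ℤ) : Tr K m) ∈ Ideal.span {tt K m} := by
    intro g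
    induction g using MvPolynomial.induction_on with
    | C a =>
      rw [algHom_C, constantCoeff_C]
      simp
    | add p q hp hq =>
      rw [map_add, map_add, Int.cast_add, add_sub_add_comm]
      exact Ideal.add_mem _ hp hq
    | mul_X p i _ =>
      rw [map_mul, map_mul, constantCoeff_X, mul_zero, aeval_X, Int.cast_zero, sub_zero]
      exact Ideal.mul_mem_left _ _ (hx i)
  have h1 := key f
  rw [hf, Int.cast_zero, sub_zero] at h1
  exact h1

/-- the arc of `f + w l` -/
def glue {σ A : Type} (x : σ → A) (p : A × A) : Option (Option σ) → A :=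
  fun o => o.elim p.1 (fun o' => o'.elim p.2 x)

theorem aeval_stab (K : Type) [Field K] {σ : Type} (m : ℕ) (f : MvPolynomial σ ℤ)
    (y : Option (Option σ) → Tr K m) :
    aeval y (stab1 f) = aeval (fun i => y (some (some i))) f + y none * y (some none) := by
  unfold stab1
  rw [map_add, map_mul, aeval_X, aeval_X, aeval_rename]
  rfl

theorem cnt_eq (K : Type) [Field K] [Finite K] {σ : Type} [Fintype σ] (f : MvPolynomial σ ℤ)
    (m : ℕ) (hA : (Arc K σ m).Finite) :
    cnt K (stab1 f) m = ∑ x ∈ hA.toFinset, (Pr K m (aeval x f)).ncard := by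
  haveI := finite_Tr K m
  have hJ : (Jet K (stab1 f) m).Finite := Set.toFinite _
  unfold cnt
  rw [Set.ncard_eq_toFinset_card _ hJ]
  rw [Finset.card_eq_sum_card_fiberwise (f := fun y : Option (Option σ) → Tr K m =>
    fun i => y (some (some i))) (t := hA.toFinset)]
  · refine Finset.sum_congr rfl fun x hx => ?_
    have hP : (Pr K m (aeval x f)).Finite := Set.toFinite _
    rw [Set.ncard_eq_toFinset_card _ hP]
    rw [Set.Finite.mem_toFinset] at hx
    refine Finset.card_nbij' (fun y => (y none, y (some none))) (fun p => glue x p) ?_ ?_ ?_ ?_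
    · intro y hy
      simp only [Finset.coe_filter, Set.Finite.mem_toFinset, Set.mem_ofPred_eq,
        Set.Finite.coe_toFinset] at hy ⊢
      obtain ⟨⟨h1, h2, h3⟩, h4⟩ := hy
      rw [aeval_stab, h4] at h2 h3
      exact ⟨h1 none, h1 (some none), h2, h3⟩
    · intro p hp
      simp only [Finset.coe_filter, Set.Finite.mem_toFinset, Set.mem_ofPred_eq,
        Set.Finite.coe_toFinset] at hp ⊢
      obtain ⟨h1, h2, h3, h4⟩ := hp
      refine ⟨⟨?_, ?_, ?_⟩, rfl⟩
      · intro o
        rcases o with _ | _ | i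
        · exact h1
        · exact h2
        · exact hx i
      · rw [aeval_stab]
        exact h3
      · rw [aeval_stab]
        exact h4
    · intro y hy
      simp only [Finset.coe_filter, Set.Finite.mem_toFinset, Set.mem_ofPred_eq] at hy
      funext o
      rcases o with _ | _ | i
      · rfl
      · rfl
      · exact (congrFun hy.2 i).symm
    · intro p _
      rfl
  · intro y hy
    simp only [Set.Finite.coe_toFinset] at hy ⊢
    exact fun i => hy.1 (some (some i))

/-- the order of a nonzero element of `(t)` -/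
theorem exists_order (K : Type) [Field K] (m : ℕ) (c : Tr K m) (hc : c ∈ Ideal.span {tt K m})
    (h0 : c ≠ 0) : ∃ k, 1 ≤ k ∧ k ≤ m ∧ tt K m ^ (m - k + 1) * c = 0 ∧
      tt K m ^ (m - k) * c ≠ 0 := by
  have hex : ∃ j, tt K m ^ j * c = 0 := ⟨m, pow_mul_zero K m c hc⟩
  have h1 := Nat.find_spec hex
  have h2 : Nat.find hex ≤ m := Nat.find_min' hex (pow_mul_zero K m c hc)
  have h3 : Nat.find hex ≠ 0 := by
    intro h
    rw [h, pow_zero, one_mul] at h1
    exact h0 h1
  refine ⟨m - Nat.find hex + 1, by omega, by omega, ?_, ?_⟩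
  · rw [show m - (m - Nat.find hex + 1) + 1 = Nat.find hex by omega]
    exact h1
  · rw [show m - (m - Nat.find hex + 1) = Nat.find hex - 1 by omega]
    exact Nat.find_min hex (by omega)

theorem order_unique (K : Type) [Field K] (m : ℕ) (c : Tr K m) (k k' : ℕ) (hk : k ≤ m)
    (hk' : k' ≤ m) (h1 : tt K m ^ (m - k + 1) * c = 0) (h2 : tt K m ^ (m - k) * c ≠ 0)
    (h1' : tt K m ^ (m - k' + 1) * c = 0) (h2' : tt K m ^ (m - k') * c ≠ 0) : k = k' := by
  have key : ∀ a b : ℕ, a ≤ b → tt K m ^ a * c = 0 → tt K m ^ b * c = 0 := by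
    intro a b hab h
    calc tt K m ^ b * c = tt K m ^ (b - a) * (tt K m ^ a * c) := by
          rw [← mul_assoc, ← pow_add, Nat.sub_add_cancel hab]
      _ = 0 := by rw [h, mul_zero]
  rcases lt_trichotomy k k' with h | h | h
  · exact absurd (key _ _ (by omega) h1') h2
  · exact h
  · exact absurd (key _ _ (by omega) h1) h2'

theorem t (hl : LIFT) (hw : WL) : Pool.Agent.Helper74.HG.CNT := by
  intro K _ _ σ _ f hf m hm
  haveI := finite_Tr K m
  have hA : (Arc K σ m).Finite := Set.toFinite _
  set q : ℤ := (Nat.card K : ℤ) with hq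
  set F := hA.toFinset with hF
  have hcnt := cnt_eq K f m hA
  have hAc : (F.card : ℤ) = q ^ (Fintype.card σ * m) := by
    rw [hF, ← Set.ncard_eq_toFinset_card _ hA, (hl K σ).1 m]
    push_cast
    rfl
  have hJ : ∀ k, k ≤ m → ((F.filter (fun x => x ∈ JetO K f m k)).card : ℤ) =
      q ^ (Fintype.card σ * (m - k)) * cnt K f k := by
    intro k hk
    have h1 := (hl K σ).2 f m k hk
    have h2 : (F.filter (fun x => x ∈ JetO K f m k)).card = (JetO K f m k).ncard := by
      have hfin : (JetO K f m k).Finite := Set.toFinite _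
      rw [Set.ncard_eq_toFinset_card _ hfin]
      congr 1
      ext x
      simp only [hF, Finset.mem_filter, Set.Finite.mem_toFinset]
      exact ⟨fun h => h.2, fun h => ⟨h.1, h⟩⟩
    rw [h2, h1]
    push_cast
    rfl
  have hpt : ∀ x ∈ F, ((Pr K m (aeval x f)).ncard : ℤ) =
      q ^ m * (((m : ℤ) - 1) * (q - 1) ^ 2 + q * (if x ∈ JetO K f m m then 1 else 0) -
        ∑ k ∈ Finset.range m, ((m : ℤ) - k) * (q - 1) ^ 2 *
          (if x ∈ JetO K f m k then 1 else 0)) := by
    intro x hx
    rw [hF, Set.Finite.mem_toFinset] at hx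
    have hc := aeval_mem K m f hf x hx
    obtain ⟨w1, w2, w3⟩ := hw K m hm (aeval x f) hc
    by_cases h0 : aeval x f = 0
    · have hno : ∀ k, x ∉ JetO K f m k := by
        intro k h
        exact h.2.2 (by rw [h0, mul_zero])
      have e1 := w3 h0
      change ((Pr K m (aeval x f)).ncard : ℤ) = _ at e1
      rw [e1, if_neg (hno m), Finset.sum_eq_zero (fun k _ => by rw [if_neg (hno k), mul_zero])]
      ring
    · obtain ⟨k, hk1, hkm, hk2, hk3⟩ := exists_order K m (aeval x f) hc h0
      have hin : x ∈ JetO K f m k := ⟨hx, hk2, hk3⟩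
      have hne : ∀ k', k' ≤ m → k' ≠ k → x ∉ JetO K f m k' := by
        intro k' hk' hkk h
        exact hkk (order_unique K m (aeval x f) k' k hk' hkm h.2.1 h.2.2 hk2 hk3)
      rcases Nat.lt_or_ge k m with hlt | hge
      · have e1 := w1 k hk1 hlt hk2 hk3
        change ((Pr K m (aeval x f)).ncard : ℤ) = _ at e1
        rw [e1, if_neg (hne m le_rfl (by omega)), Finset.sum_eq_single k, if_pos hin]
        · ring
        · intro b hb hbk
          rw [if_neg (hne b (Finset.mem_range.1 hb).le hbk), mul_zero]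
        · intro h
          exact absurd (Finset.mem_range.2 hlt) h
      · have hkm' : k = m := by omega
        subst hkm'
        have e1 := w2 (by simpa using hk2) h0
        change ((Pr K k (aeval x f)).ncard : ℤ) = _ at e1
        rw [e1, if_pos hin, Finset.sum_eq_zero]
        · ring
        · intro b hb
          have hb' := Finset.mem_range.1 hb
          rw [if_neg (hne b hb'.le (by omega)), mul_zero]
  have hsum : (cnt K (stab1 f) m : ℤ) = ∑ x ∈ F, ((Pr K m (aeval x f)).ncard : ℤ) := by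
    rw [hcnt]
    push_cast
    rfl
  rw [hsum, Finset.sum_congr rfl hpt, ← Finset.mul_sum, Finset.sum_sub_distrib,
    Finset.sum_add_distrib, Finset.sum_const, nsmul_eq_mul, hAc, ← Finset.mul_sum,
    Finset.sum_comm]
  congr 1
  have e1 : ∑ x ∈ F, (if x ∈ JetO K f m m then (1 : ℤ) else 0) = cnt K f m := by
    rw [← Finset.sum_filter, Finset.sum_const, nsmul_eq_mul, mul_one, hJ m le_rfl]
    simp
  have e2 : ∀ k ∈ Finset.range m, ∑ x ∈ F, ((m : ℤ) - k) * (q - 1) ^ 2 *
      (if x ∈ JetO K f m k then (1 : ℤ) else 0) =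
      ((m : ℤ) - k) * (q - 1) ^ 2 * q ^ (Fintype.card σ * (m - k)) * cnt K f k := by
    intro k hk
    rw [← Finset.mul_sum, ← Finset.sum_filter, Finset.sum_const, nsmul_eq_mul, mul_one,
      hJ k (Finset.mem_range.1 hk).le]
    ring
  rw [e1, Finset.sum_congr rfl e2]
  ring

end Pool.Agent.Helper63.HG.CNT
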